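import Mathlib
import Pool.Agent.Lib.MP_2c9d40_co.Defs
import Pool.Agent.Lib.MP_2c9d40_co.Wrap

namespace Pool.Agent.Results.MP_2c9d40_co.TypeTwo

open Pool.Agent.Lib.MP_2c9d40_co

/-- **Q1 holds.** Let `h` be odd and let `Γ = Cay(ℤ_{4h}, S)` be nontrivially unstable of Type II.
Then `Cay(ℤ_{4h}, (S \ {2h}) + 2h)` has an automorphism that fixes `0` and does not fix `2h`. -/
theorem result (h : ℕ) (hodd : Odd h) (S : ConnSet (4 * h))
    (hS : NontriviallyUnstable (Cay S)) (hII : TypeII S) :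
    ∃ φ : Cay (shifted h S) ≃g Cay (shifted h S),
      φ 0 = 0 ∧ φ ((2 * h : ℕ) : ZMod (4 * h)) ≠ ((2 * h : ℕ) : ZMod (4 * h)) := by
  have : NeZero (4 * h) := ⟨by have := hodd.pos; omega⟩
  obtain ⟨γ, h0, h1, h2⟩ := TII.final (ctx_of hodd S hS hII)
  have h4 : TII.ee h + TII.ee h = 0 := TII.ee_add
  have key : ∀ z : ZMod (4 * h),
      z ∈ (shifted h S).carrier ↔ (z + TII.ee h ∈ S.carrier ∧ z ≠ 0) := by
    intro z
    constructor
    · rintro ⟨s, ⟨hs, hs'⟩, rfl⟩
      have e1 : s + ((2 * h : ℕ) : ZMod (4 * h)) + TII.ee h = s := by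
        show s + TII.ee h + TII.ee h = s
        rw [add_assoc, h4, add_zero]
      rw [e1]
      refine ⟨hs, fun hc => hs' ?_⟩
      show s = TII.ee h
      have hc' : s + TII.ee h = 0 := hc
      have : s + TII.ee h = TII.ee h + TII.ee h := by rw [hc', h4]
      exact add_right_cancel this
    · rintro ⟨hz, hz0⟩
      refine ⟨z + TII.ee h, ⟨hz, ?_⟩, ?_⟩
      · intro hc
        apply hz0
        have hc' : z + TII.ee h = TII.ee h := hc
        simpa using hc'
      · show z = z + TII.ee h + TII.ee h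
        rw [add_assoc, h4, add_zero]
  refine ⟨{ toEquiv := γ, map_rel_iff' := ?_ }, h0, h1⟩
  intro x y
  show γ y - γ x ∈ (shifted h S).carrier ↔ y - x ∈ (shifted h S).carrier
  rw [key, key, sub_ne_zero, sub_ne_zero]
  exact h2 x y

end Pool.Agent.Results.MP_2c9d40_co.TypeTwo
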